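import Pool.Agent.W973.SRR.Defs

set_option autoImplicit false

/-! SRR-TOT: strict total preferences. -/

namespace Pool.Agent.W691.SRR

open Pool.Agent.W973.SRR Pool.Agent.NPC

theorem tot : S_TOT := by
  intro n P hP a ha b hb c hc hba hca hbc
  have hmem : ∀ x < n, x ≠ a → x ∈ P.getD a [] := by
    intro x hx hxa
    rw [(hP.2 a ha).mem_iff, List.mem_filter]
    exact ⟨List.mem_range.2 hx, by simpa using hxa⟩
  have hb' := hmem b hb hba
  have hc' := hmem c hc hca
  have hne : (P.getD a []).idxOf b ≠ (P.getD a []).idxOf c := by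
    intro h
    apply hbc
    have h1 := List.idxOf_lt_length_iff.2 hb'
    have h2 := List.idxOf_lt_length_iff.2 hc'
    have e1 : (P.getD a [])[(P.getD a []).idxOf b] = b := List.getElem_idxOf h1
    have e2 : (P.getD a [])[(P.getD a []).idxOf c] = c := List.getElem_idxOf h2
    rw [← e1, ← e2]
    congr 1
  unfold Pf
  omega

end Pool.Agent.W691.SRR

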